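import Pool.Agent.Y772.SK.Main

/-!
# Unconditional forms of `StNzrK` and `StSelK`
-/

set_option autoImplicit false

namespace Pool.Agent.Y772.SK

open Pool.Agent.Y773

theorem nzrK : StNzrK := NZ.t_nzrK DK.t_dirK

theorem selK : StSelK := t_selK DK.t_dirK

end Pool.Agent.Y772.SK
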