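import Pool.Agent.Y772.NZ.Main

/-!
# The logarithmic derivative near `s = 1`
-/

set_option autoImplicit false

open NumberField Complex Filter Topology Ideal

namespace Pool.Agent.Y772.SK

open Pool.Agent.Y773

variable {K : Type} [Field K] [NumberField K]

open scoped ArithmeticFunction.vonMangoldt in
/-- the limit of `ε (-L'/L)(1 + ε)` -/
lemma lim_order (hD : StDirK) (φ : Ideal (𝓞 K) →*₀ ℂ) (hφ : ∀ 𝔞, ‖φ 𝔞‖ ≤ 1) (F : ℂ → ℂ)
    (hF : AnalyticAt ℂ F 1) (j : ℕ)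
    (h : ∀ᶠ z in 𝓝 (1 : ℂ), 1 < z.re → LI φ z * (z - 1) ^ j = F z) :
    ∃ m : ℕ, (F 1 ≠ 0 → m = 0) ∧ Tendsto (fun σ : ℝ => σ * ∑' n : ℕ,
      (cc φ n).re * Λ n * (n : ℝ) ^ (-(1 + σ))) (𝓝[>] 0) (𝓝 ((j : ℝ) - m)) := by
  obtain ⟨A, hA, hD⟩ := hD K
  obtain ⟨-, hdiff, hne, hlog, -, -, hcc, -, -, -, -⟩ := hD φ hφ
  have ht : Tendsto (fun σ : ℝ => (1 : ℂ) + (σ : ℂ)) (𝓝[>] 0) (𝓝 (1 : ℂ)) := by
    have : Continuous (fun σ : ℝ => (1 : ℂ) + (σ : ℂ)) := by fun_prop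
    have h0 := this.tendsto 0
    simp only [Complex.ofReal_zero, add_zero] at h0
    exact h0.mono_left nhdsWithin_le_nhds
  have hre : ∀ σ : ℝ, 0 < σ → 1 < ((1 : ℂ) + (σ : ℂ)).re := by
    intro σ hσ
    rw [add_re, one_re, ofReal_re]
    linarith
  -- finite order
  have hord : analyticOrderAt F 1 ≠ ⊤ := by
    intro htop
    rw [analyticOrderAt_eq_top] at htop
    obtain ⟨σ, h1, h2, h4⟩ := ((ht.eventually htop).and ((ht.eventually h).and
      self_mem_nhdsWithin)).exists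
    have hσ : (0 : ℝ) < σ := h4
    have h5 := h2 (hre σ hσ)
    rw [h1] at h5
    rcases mul_eq_zero.1 h5 with h6 | h6
    · exact hne _ (hre σ hσ) h6
    · have h7 := eq_zero_of_pow_eq_zero h6
      rw [add_sub_cancel_left] at h7
      exact hσ.ne' (by exact_mod_cast h7)
  obtain ⟨m, hm⟩ := ENat.ne_top_iff_exists.1 hord
  obtain ⟨g, hg, hg0, hgz⟩ := (hF.analyticOrderAt_eq_natCast).1 hm.symm
  refine ⟨m, ?_, ?_⟩
  · intro h1
    by_contra h2
    have h3 := hgz.self_of_nhds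
    rw [sub_self, zero_pow h2, zero_smul] at h3
    exact h1 h3
  have hgc : ContinuousAt (fun z => deriv g z / g z) 1 :=
    hg.deriv.continuousAt.div hg.continuousAt hg0
  have hgne : ∀ᶠ z in 𝓝 (1 : ℂ), g z ≠ 0 := hg.continuousAt.eventually_ne hg0
  have hga : ∀ᶠ z in 𝓝 (1 : ℂ), AnalyticAt ℂ g z := hg.eventually_analyticAt
  -- the formula
  have hform : ∀ᶠ σ : ℝ in 𝓝[>] 0,
      (j : ℝ) - m - ((σ : ℂ) * (deriv g (1 + (σ : ℂ)) / g (1 + (σ : ℂ)))).re =
      σ * ∑' n : ℕ, (cc φ n).re * Λ n * (n : ℝ) ^ (-(1 + σ)) := by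
    filter_upwards [ht.eventually hgne, ht.eventually hga,
      ht.eventually hgz.eventually_nhds, ht.eventually h.eventually_nhds,
      self_mem_nhdsWithin] with σ h2 h3' h4 h5 hσ
    have hσ' : (0 : ℝ) < σ := hσ
    set z : ℂ := 1 + (σ : ℂ) with hz
    have hzre : 1 < z.re := hre σ hσ'
    have hz1 : z - 1 = (σ : ℂ) := by rw [hz]; ring
    have hσ0 : (σ : ℂ) ≠ 0 := by exact_mod_cast hσ'.ne'
    have hopen : ∀ᶠ w in 𝓝 z, 1 < w.re :=
      (isOpen_lt continuous_const continuous_re).mem_nhds hzre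
    have heq : (fun w => LI φ w * (w - 1) ^ j) =ᶠ[𝓝 z] fun w => (w - 1) ^ m * g w := by
      filter_upwards [h4, h5, hopen] with w hw hw5 hw1
      rw [hw5 hw1, hw, smul_eq_mul]
    have e1 : ∀ k : ℕ, HasDerivAt (fun w : ℂ => (w - 1) ^ k) ((k : ℂ) * (z - 1) ^ (k - 1)) z := by
      intro k
      have h9 : HasDerivAt (fun w : ℂ => (w - 1) ^ k) ((k : ℂ) * (z - 1) ^ (k - 1) * 1) z :=
        ((hasDerivAt_id z).sub_const 1).pow k
      rwa [mul_one] at h9
    have hL := (hdiff z hzre).hasDerivAt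
    have hd1 := (hL.mul (e1 j)).deriv
    have hd2 := ((e1 m).mul h3'.differentiableAt.hasDerivAt).deriv
    have hd3 : deriv (LI φ) z * (z - 1) ^ j + LI φ z * ((j : ℂ) * (z - 1) ^ (j - 1)) =
        (m : ℂ) * (z - 1) ^ (m - 1) * g z + (z - 1) ^ m * deriv g z := by
      have := heq.deriv_eq
      rw [← hd2, ← hd1]
      exact this
    have hv : LI φ z * (z - 1) ^ j = (z - 1) ^ m * g z := heq.eq_of_nhds
    have hpw : ∀ k : ℕ, (k : ℂ) * (σ : ℂ) ^ (k - 1) * (σ : ℂ) = (k : ℂ) * (σ : ℂ) ^ k := by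
      intro k
      rcases k with _ | k
      · simp
      · rw [Nat.add_sub_cancel, mul_assoc, ← pow_succ]
    rw [hz1] at hd3 hv
    have hLne := hne z hzre
    have hpj : (σ : ℂ) ^ j ≠ 0 := pow_ne_zero _ hσ0
    have hquot : (σ : ℂ) * (deriv (LI φ) z / LI φ z) =
        (m : ℂ) - (j : ℂ) + (σ : ℂ) * (deriv g z / g z) := by
      have e2 : deriv (LI φ) z * (σ : ℂ) ^ j * σ + LI φ z * ((j : ℂ) * (σ : ℂ) ^ j) =
          (m : ℂ) * (σ : ℂ) ^ m * g z + (σ : ℂ) ^ m * deriv g z * σ := by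
        linear_combination (σ : ℂ) * hd3 - LI φ z * hpw j + g z * hpw m
      have e3 : (σ : ℂ) ^ m * g z ≠ 0 := by rw [← hv]; exact mul_ne_zero hLne hpj
      have e4 : (σ : ℂ) ^ m * deriv g z * σ = LI φ z * (σ : ℂ) ^ j * (deriv g z / g z) * σ := by
        rw [hv]
        field_simp
      rw [e4] at e2
      have e5 : (m : ℂ) * (σ : ℂ) ^ m * g z = (m : ℂ) * (LI φ z * (σ : ℂ) ^ j) := by rw [hv]; ring
      rw [e5] at e2
      have e6 : (σ : ℂ) * (deriv (LI φ) z / LI φ z) * (LI φ z * (σ : ℂ) ^ j) =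
          ((m : ℂ) - (j : ℂ) + (σ : ℂ) * (deriv g z / g z)) * (LI φ z * (σ : ℂ) ^ j) := by
        have e7 : (σ : ℂ) * (deriv (LI φ) z / LI φ z) * (LI φ z * (σ : ℂ) ^ j) =
            deriv (LI φ) z * (σ : ℂ) ^ j * σ := by
          field_simp
        rw [e7]
        linear_combination e2
      exact mul_right_cancel₀ (mul_ne_zero hLne hpj) e6
    have hlz := hlog z hzre
    rw [hlz] at hquot
    have hterm : ∀ n : ℕ, cc φ n * (Λ n : ℂ) * (n : ℂ) ^ (-z) =
        cc φ n * ((Λ n * (n : ℝ) ^ (-(1 + σ)) : ℝ) : ℂ) := by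
      intro n
      have e2 : (n : ℂ) ^ (-z) = (((n : ℝ) ^ (-(1 + σ)) : ℝ) : ℂ) := by
        rw [Complex.ofReal_cpow (Nat.cast_nonneg n), hz]
        push_cast
        rfl
      rw [e2]
      push_cast
      ring
    rw [tsum_congr hterm] at hquot
    have hΛs : Summable (fun n : ℕ => Λ n * (n : ℝ) ^ (-(1 + σ))) := by
      have h1 := (ArithmeticFunction.LSeriesSummable_vonMangoldt
        (s := ((1 + σ : ℝ) : ℂ)) (by simpa using hσ')).norm
      refine h1.congr fun n => ?_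
      rw [LSeries.norm_term_eq]
      rcases eq_or_ne n 0 with rfl | hn
      · simp
      · rw [if_neg hn, Complex.norm_real,
          Real.norm_of_nonneg ArithmeticFunction.vonMangoldt_nonneg,
          Complex.ofReal_re, Real.rpow_neg (Nat.cast_nonneg n), div_eq_mul_inv]
    have hsum : Summable (fun n : ℕ => cc φ n * ((Λ n * (n : ℝ) ^ (-(1 + σ)) : ℝ) : ℂ)) := by
      refine Summable.of_norm_bounded (hΛs.mul_left (Module.finrank ℚ K : ℝ)) fun n => ?_
      have hnn : 0 ≤ Λ n * (n : ℝ) ^ (-(1 + σ)) :=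
        mul_nonneg ArithmeticFunction.vonMangoldt_nonneg (Real.rpow_nonneg (Nat.cast_nonneg n) _)
      rw [norm_mul, norm_real, Real.norm_of_nonneg hnn]
      exact mul_le_mul_of_nonneg_right (hcc n) hnn
    have hre2 := congrArg Complex.re hquot
    rw [re_ofReal_mul, neg_re, Complex.re_tsum hsum] at hre2
    have e8 : ∀ n : ℕ, (cc φ n * ((Λ n * (n : ℝ) ^ (-(1 + σ)) : ℝ) : ℂ)).re =
        (cc φ n).re * Λ n * (n : ℝ) ^ (-(1 + σ)) := by
      intro n
      rw [re_mul_ofReal, mul_assoc]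
    rw [tsum_congr e8, add_re, sub_re, natCast_re, natCast_re] at hre2
    linarith
  have hlim : Tendsto (fun σ : ℝ => (j : ℝ) - m -
      ((σ : ℂ) * (deriv g (1 + (σ : ℂ)) / g (1 + (σ : ℂ)))).re) (𝓝[>] 0)
      (𝓝 ((j : ℝ) - m - ((0 : ℂ) * (deriv g 1 / g 1)).re)) := by
    refine Tendsto.const_sub _ ?_
    refine (Complex.continuous_re.tendsto _).comp ?_
    refine Tendsto.mul ?_ (hgc.tendsto.comp ht)
    have h0 := (Complex.continuous_ofReal.tendsto (0 : ℝ))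
    rw [ofReal_zero] at h0
    exact h0.mono_left nhdsWithin_le_nhds
  rw [zero_mul, zero_re, sub_zero] at hlim
  exact hlim.congr' hform

end Pool.Agent.Y772.SK
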