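import Pool.Agent.Y772.SK.Orb
import Pool.Agent.Y772.SK.Ord
import Pool.Agent.Y772.DK.Main
import Pool.Agent.W688.TW.Kara

/-!
# Selberg orthonormality for characters induced from a cyclic cubic field
-/

set_option autoImplicit false

open NumberField Complex Filter Topology Ideal
open scoped Pointwise

namespace Pool.Agent.Y772.SK

open Pool.Agent.Y773 Pool.Agent.Y772.NZ

/-- the rational primes below the prime ideals of degree one dividing `𝔟` -/
lemma finite_bad' (K : Type) [Field K] [NumberField K] {𝔟 : Ideal (𝓞 K)} (h0 : 𝔟 ≠ 0) :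
    {p : ℕ | ∃ P : Ideal (𝓞 K), absNorm P = p ∧ P ∣ 𝔟}.Finite := by
  have h1 : {P : Ideal (𝓞 K) | P ∣ 𝔟}.Finite := DK.finite_dvd h0
  refine (h1.image absNorm).subset ?_
  rintro p ⟨P, hP, hd⟩
  exact ⟨P, hd, hP⟩

lemma sq_three {a b c : ℂ} (ha : ‖a‖ = 1) (hb : ‖b‖ = 1) (hc : ‖c‖ = 1) :
    ‖a + (b + c)‖ ^ 2 = 3 + 2 * (a * (starRingEnd ℂ) b + (b * (starRingEnd ℂ) c +
      c * (starRingEnd ℂ) a)).re := by
  have h1 : ∀ z : ℂ, ‖z‖ ^ 2 = z.re * z.re + z.im * z.im := fun z => by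
    rw [← Complex.normSq_eq_norm_sq, Complex.normSq_apply]
  have ha' := h1 a
  have hb' := h1 b
  have hc' := h1 c
  rw [ha] at ha'
  rw [hb] at hb'
  rw [hc] at hc'
  rw [h1]
  simp only [add_re, add_im, mul_re, conj_re, conj_im]
  linarith

open scoped ArithmeticFunction.vonMangoldt in
theorem t_selK (hD : StDirK) : StSelK := by
  intro K _ _ hG h3 ψ hψ hm hcont
  classical
  obtain ⟨𝔪, hm0, hm1⟩ := hm
  obtain ⟨τ, hτ1, hτ3, hτ⟩ := exists_gen hG h3
  obtain ⟨A, hA, hDK⟩ := hD K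
  set φ : Ideal (𝓞 K) →*₀ ℂ := rs τ.toRingEquiv ψ with hφdef
  have hφa : ∀ I, φ I = ψ I * (starRingEnd ℂ) (ψ (τ • I)) := fun I => rs_apply τ ψ I
  have hφ : ∀ I, ‖φ I‖ ≤ 1 := by
    intro I
    rw [hφa, norm_mul, RCLike.norm_conj]
    have h1 := hψ I
    have h2 := hψ (τ • I)
    nlinarith [norm_nonneg (ψ I), norm_nonneg (ψ (τ • I))]
  have hτne : τ.toRingEquiv ≠ RingEquiv.refl K := by
    intro h
    apply hτ1
    ext x
    exact congrArg (fun e : K ≃+* K => e x) h
  obtain ⟨F, hF, hFL⟩ := hcont τ.toRingEquiv hτne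
  obtain ⟨m, -, hlim2⟩ := lim_order hD φ hφ F hF 0 (by
    filter_upwards [hFL] with z hz h1
    rw [pow_zero, mul_one]
    exact hz h1)
  obtain ⟨g, hg, hg1, hgz⟩ := near_one K
  obtain ⟨m1, hm1', hlim1⟩ := lim_order hD (one K) (one_norm K) g hg 1 (by
    filter_upwards [hgz] with z hz h1
    have hz1 : z - 1 ≠ 0 := by
      intro h0
      have : z = 1 := by linear_combination h0
      rw [this] at h1
      simp at h1
    rw [pow_one, hz h1, div_mul_cancel₀ _ hz1])
  have hm10 : m1 = 0 := hm1' hg1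
  subst hm10
  obtain ⟨-, -, -, -, -, -, hccb, hccp, -, -, -⟩ := hDK ψ hψ
  obtain ⟨-, -, -, -, -, -, hccb1, hccp1, -, -, -⟩ := hDK (one K) (one_norm K)
  obtain ⟨-, -, -, -, -, -, hccb2, hccp2, -, -, -⟩ := hDK φ hφ
  rw [h3] at hccb hccb1 hccb2
  have hbad0 : differentIdeal ℤ (𝓞 K) * 𝔪 ≠ 0 := mul_ne_zero differentIdeal_ne_bot hm0
  have hfb := finite_bad' K hbad0
  -- the error
  set w : ℕ → ℝ := fun n => ‖cc ψ n‖ ^ 2 - (cc (one K) n).re - 2 * (cc φ n).re with hw
  have hwb : ∀ n, |w n| ≤ 18 := by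
    intro n
    have h1 := hccb n
    have h2 := (abs_re_le_norm (cc (one K) n)).trans (hccb1 n)
    have h4 := (abs_re_le_norm (cc φ n)).trans (hccb2 n)
    push_cast at h1 h2 h4
    rw [abs_le] at h2 h4 ⊢
    have h5 : ‖cc ψ n‖ ^ 2 ≤ 9 := by nlinarith [norm_nonneg (cc ψ n)]
    have h6 : 0 ≤ ‖cc ψ n‖ ^ 2 := sq_nonneg _
    simp only [hw]
    constructor <;> linarith
  have hw0 : ∀ n : ℕ, n.Prime → n ∉ hfb.toFinset → w n = 0 := by
    intro p hp hb
    rw [Set.Finite.mem_toFinset] at hb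
    by_cases hT : p ∈ TT K
    · obtain ⟨-, P, hP⟩ := hT
      have hPp := prime_of_norm hp hP
      have hP0 : P ≠ ⊥ := by
        rintro rfl
        rw [absNorm_bot] at hP
        exact hp.ne_zero hP.symm
      have hnd : ¬ P ∣ differentIdeal ℤ (𝓞 K) := fun h =>
        hb ⟨P, hP, h.mul_right 𝔪⟩
      obtain ⟨ho, -, -, -⟩ := orbit hG h3 hτ hp hP hnd
      have hun : ∀ Q : Ideal (𝓞 K), absNorm Q = p → ‖ψ Q‖ = 1 := by
        intro Q hQ
        refine hm1 Q ?_
        have hQp := prime_of_norm hp hQ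
        have hQ0 : Q ≠ ⊥ := by
          rintro rfl
          rw [absNorm_bot] at hQ
          exact hp.ne_zero hQ.symm
        have hQm : Q.IsMaximal := hQp.isMaximal hQ0
        have hQd : ¬ Q ∣ 𝔪 := fun h => hb ⟨Q, hQ, h.mul_left _⟩
        rw [Ideal.isCoprime_iff_sup_eq]
        by_contra hne
        have h9 := hQm.eq_of_le hne le_sup_left
        refine hQd (Ideal.dvd_iff_le.2 ?_)
        rw [h9]
        exact le_sup_right
      have hP1 : absNorm (τ • P) = p := by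
        have : τ • P ∈ {Q : Ideal (𝓞 K) | absNorm Q = p} := by rw [ho]; simp
        exact this
      have hP2 : absNorm (τ ^ 2 • P) = p := by
        have : τ ^ 2 • P ∈ {Q : Ideal (𝓞 K) | absNorm Q = p} := by rw [ho]; simp
        exact this
      have e1 := hccp p hp
      have e2 := hccp1 p hp
      have e3 := hccp2 p hp
      have s3 := sum_three (hG := hG) h3 hτ hp hP hnd
      rw [s3] at e1 e2 e3
      rw [hφa, hφa, hφa] at e3
      have q1 : τ • τ • P = τ ^ 2 • P := by rw [pow_two, mul_smul]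
      have q2 : τ • τ ^ 2 • P = P := by rw [← mul_smul, ← pow_succ', hτ3, one_smul]
      rw [q1, q2] at e3
      have o1 : ∀ Q : Ideal (𝓞 K), absNorm Q = p → one K Q = 1 := by
        intro Q hQ
        refine one_ne K ?_
        rintro rfl
        rw [Ideal.zero_eq_bot, absNorm_bot] at hQ
        exact hp.ne_zero hQ.symm
      rw [o1 P hP, o1 _ hP1, o1 _ hP2] at e2
      simp only [hw]
      rw [e1, e2, e3, sq_three (hun P hP) (hun _ hP1) (hun _ hP2)]
      norm_num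
    · simp only [hw]
      rw [cc_zero_of_not hp (hccp p hp) hT, cc_zero_of_not hp (hccp1 p hp) hT,
        cc_zero_of_not hp (hccp2 p hp) hT]
      simp
  -- constants
  have hnp : Summable (fun n : ℕ => (if n.Prime then 0 else Λ n) / (n : ℝ)) := by
    have h := ArithmeticFunction.vonMangoldt.summable_residueClass_non_primes_div (q := 1) (a := 0)
    refine h.congr fun n => ?_
    congr 1
    split_ifs with hn
    · rfl
    · unfold ArithmeticFunction.vonMangoldt.residueClass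
      rw [Set.indicator_of_mem]
      exact Subsingleton.elim _ _
  have hfs : Summable (fun n : ℕ => if n ∈ hfb.toFinset then Λ n else 0) :=
    summable_of_ne_finset_zero (s := hfb.toFinset) fun n hn => if_neg hn
  set W : ℝ := ∑' n : ℕ, (18 * ((if n.Prime then 0 else Λ n) / (n : ℝ)) +
    18 * (if n ∈ hfb.toFinset then Λ n else 0)) with hW
  have hWs : Summable (fun n : ℕ => 18 * ((if n.Prime then 0 else Λ n) / (n : ℝ)) +
    18 * (if n ∈ hfb.toFinset then Λ n else 0)) := (hnp.mul_left _).add (hfs.mul_left _)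
  have hΛ : ∀ n : ℕ, 0 ≤ Λ n := fun n => ArithmeticFunction.vonMangoldt_nonneg
  -- summability
  have hkey : ∀ σ : ℝ, 0 < σ →
      Summable (fun n : ℕ => Λ n * ‖cc ψ n‖ ^ 2 * (n : ℝ) ^ (-(1 + σ))) ∧
      |∑' n : ℕ, w n * Λ n * (n : ℝ) ^ (-(1 + σ))| ≤ W ∧
      ∑' n : ℕ, Λ n * ‖cc ψ n‖ ^ 2 * (n : ℝ) ^ (-(1 + σ)) =
        ∑' n : ℕ, (cc (one K) n).re * Λ n * (n : ℝ) ^ (-(1 + σ)) +
        2 * ∑' n : ℕ, (cc φ n).re * Λ n * (n : ℝ) ^ (-(1 + σ)) +
        ∑' n : ℕ, w n * Λ n * (n : ℝ) ^ (-(1 + σ)) := by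
    intro σ hσ
    have hr : ∀ n : ℕ, 0 ≤ (n : ℝ) ^ (-(1 + σ)) := fun n => Real.rpow_nonneg (Nat.cast_nonneg n) _
    have hr1 : ∀ n : ℕ, (n : ℝ) ^ (-(1 + σ)) ≤ 1 / (n : ℝ) := by
      intro n
      rcases Nat.eq_zero_or_pos n with rfl | hn
      · rw [Nat.cast_zero, Real.zero_rpow (by linarith)]; simp
      · rw [one_div, ← Real.rpow_neg_one]
        exact Real.rpow_le_rpow_of_exponent_le (by exact_mod_cast hn) (by linarith)
    have hr2 : ∀ n : ℕ, (n : ℝ) ^ (-(1 + σ)) ≤ 1 := by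
      intro n
      rcases Nat.eq_zero_or_pos n with rfl | hn
      · rw [Nat.cast_zero, Real.zero_rpow (by linarith)]; simp
      · exact Real.rpow_le_one_of_one_le_of_nonpos (by exact_mod_cast hn) (by linarith)
    have hΛs : Summable (fun n : ℕ => Λ n * (n : ℝ) ^ (-(1 + σ))) := by
      have h1 := (ArithmeticFunction.LSeriesSummable_vonMangoldt
        (s := ((1 + σ : ℝ) : ℂ)) (by simpa using hσ)).norm
      refine h1.congr fun n => ?_
      rw [LSeries.norm_term_eq]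
      rcases eq_or_ne n 0 with rfl | hn
      · simp
      · rw [if_neg hn, Complex.norm_real, Real.norm_of_nonneg (hΛ n),
          Complex.ofReal_re, Real.rpow_neg (Nat.cast_nonneg n), div_eq_mul_inv]
    have hsr : ∀ (v : ℕ → ℝ) (B : ℝ), (∀ n, |v n| ≤ B) →
        Summable (fun n : ℕ => v n * Λ n * (n : ℝ) ^ (-(1 + σ))) := by
      intro v B hv
      refine Summable.of_norm_bounded (hΛs.mul_left B) fun n => ?_
      have hnn : 0 ≤ Λ n * (n : ℝ) ^ (-(1 + σ)) := mul_nonneg (hΛ n) (hr n)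
      rw [mul_assoc, norm_mul, Real.norm_of_nonneg hnn]
      exact mul_le_mul_of_nonneg_right (hv n) hnn
    have hws := hsr w 18 hwb
    have h1s := hsr (fun n => (cc (one K) n).re) 3 fun n => by
      simpa using (abs_re_le_norm (cc (one K) n)).trans (hccb1 n)
    have h2s := hsr (fun n => (cc φ n).re) 3 fun n => by
      simpa using (abs_re_le_norm (cc φ n)).trans (hccb2 n)
    have h0s := hsr (fun n => ‖cc ψ n‖ ^ 2) 9 fun n => by
      have h1 := hccb n
      push_cast at h1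
      rw [abs_of_nonneg (sq_nonneg _)]
      nlinarith [norm_nonneg (cc ψ n)]
    refine ⟨h0s.congr fun n => by ring, ?_, ?_⟩
    · have hterm : ∀ n : ℕ, ‖w n * Λ n * (n : ℝ) ^ (-(1 + σ))‖ ≤
          18 * ((if n.Prime then 0 else Λ n) / (n : ℝ)) +
            18 * (if n ∈ hfb.toFinset then Λ n else 0) := by
        intro n
        have hN := hΛ n
        have hR := hr n
        have g3 : 0 ≤ (if n ∈ hfb.toFinset then Λ n else 0) := by
          split_ifs <;> [exact hN; exact le_rfl]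
        have g4 : 0 ≤ (if n.Prime then 0 else Λ n) / (n : ℝ) := by
          split_ifs
          · simp
          · positivity
        rw [mul_assoc, norm_mul, Real.norm_of_nonneg (mul_nonneg hN hR), Real.norm_eq_abs]
        have hb1 : |w n| * (Λ n * (n : ℝ) ^ (-(1 + σ))) ≤ 18 * (Λ n * (n : ℝ) ^ (-(1 + σ))) :=
          mul_le_mul_of_nonneg_right (hwb n) (mul_nonneg hN hR)
        by_cases hp : n.Prime
        · by_cases hb : n ∈ hfb.toFinset
          · rw [if_pos hb]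
            have : Λ n * (n : ℝ) ^ (-(1 + σ)) ≤ Λ n * 1 := mul_le_mul_of_nonneg_left (hr2 n) hN
            linarith
          · rw [hw0 n hp hb, abs_zero, zero_mul]
            linarith
        · rw [if_neg hp]
          have h11 : Λ n * (n : ℝ) ^ (-(1 + σ)) ≤ Λ n * (1 / (n : ℝ)) :=
            mul_le_mul_of_nonneg_left (hr1 n) hN
          have h12 : Λ n * (1 / (n : ℝ)) = Λ n / (n : ℝ) := by ring
          linarith
      rw [← Real.norm_eq_abs]
      exact (norm_tsum_le_tsum_norm hws.norm).trans (hws.norm.tsum_le_tsum hterm hWs)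
    · rw [← tsum_mul_left, ← h1s.tsum_add (h2s.mul_left 2), ← (h1s.add (h2s.mul_left 2)).tsum_add hws]
      refine tsum_congr fun n => ?_
      simp only [hw]
      ring
  -- the limit
  have hW0 : Tendsto (fun σ : ℝ => σ * ∑' n : ℕ, w n * Λ n * (n : ℝ) ^ (-(1 + σ))) (𝓝[>] 0)
      (𝓝 0) := by
    have h0 : Tendsto (fun σ : ℝ => σ * W) (𝓝[>] 0) (𝓝 0) := by
      have : Continuous fun σ : ℝ => σ * W := by fun_prop
      have h1 := this.tendsto 0
      rw [zero_mul] at h1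
      exact h1.mono_left nhdsWithin_le_nhds
    refine squeeze_zero_norm' ?_ h0
    filter_upwards [self_mem_nhdsWithin] with σ hσ
    have hσ' : (0 : ℝ) < σ := hσ
    rw [norm_mul, Real.norm_of_nonneg hσ'.le, Real.norm_eq_abs]
    exact mul_le_mul_of_nonneg_left (hkey σ hσ').2.1 hσ'.le
  have hlim : Tendsto (fun σ : ℝ => σ * ∑' n : ℕ, Λ n * ‖cc ψ n‖ ^ 2 * (n : ℝ) ^ (-(1 + σ)))
      (𝓝[>] 0) (𝓝 (((1 : ℕ) : ℝ) - ((0 : ℕ) : ℝ) + 2 * (((0 : ℕ) : ℝ) - m) + 0)) := by
    refine ((hlim1.add (hlim2.const_mul 2)).add hW0).congr' ?_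
    filter_upwards [self_mem_nhdsWithin] with σ hσ
    rw [(hkey σ hσ).2.2]
    ring
  have hm00 : m = 0 := by
    have hge : 0 ≤ ((1 : ℕ) : ℝ) - ((0 : ℕ) : ℝ) + 2 * (((0 : ℕ) : ℝ) - m) + 0 := by
      refine ge_of_tendsto hlim ?_
      filter_upwards [self_mem_nhdsWithin] with σ hσ
      have hσ' : (0 : ℝ) < σ := hσ
      refine mul_nonneg hσ'.le (tsum_nonneg fun n => ?_)
      exact mul_nonneg (mul_nonneg (hΛ n) (sq_nonneg _)) (Real.rpow_nonneg (Nat.cast_nonneg n) _)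
    by_contra hne
    have h1 : (1 : ℝ) ≤ m := by exact_mod_cast Nat.one_le_iff_ne_zero.2 hne
    push_cast at hge
    linarith
  subst hm00
  have hlim' : Tendsto (fun σ : ℝ => σ * ∑' n : ℕ, Λ n * ‖cc ψ n‖ ^ 2 * (n : ℝ) ^ (-(1 + σ)))
      (𝓝[>] 0) (𝓝 1) := by
    convert hlim using 2
    norm_num
  have hconv : ∀ (σ : ℝ), 0 < σ → ∀ n : ℕ, Λ n * ‖cc ψ n‖ ^ 2 / n * (n : ℝ) ^ (-σ) =
      Λ n * ‖cc ψ n‖ ^ 2 * (n : ℝ) ^ (-(1 + σ)) := by
    intro σ hσ n
    rcases Nat.eq_zero_or_pos n with rfl | hn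
    · simp
    · have hn0 : (0 : ℝ) < n := by exact_mod_cast hn
      rw [neg_add, Real.rpow_add hn0, Real.rpow_neg_one]
      ring
  unfold W388.SelE
  refine W688.TW.t_kara (fun n => Λ n * ‖cc ψ n‖ ^ 2 / n) (fun n => ?_) (by simp)
    (fun σ hσ => ?_) ?_
  · exact div_nonneg (mul_nonneg (hΛ n) (sq_nonneg _)) (Nat.cast_nonneg n)
  · exact (hkey σ hσ).1.congr fun n => (hconv σ hσ n).symm
  · refine hlim'.congr' ?_
    filter_upwards [self_mem_nhdsWithin] with σ hσ
    rw [tsum_congr (hconv σ hσ)]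

end Pool.Agent.Y772.SK
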