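import Pool.Agent.Y772.NZ.Main

/-!
# Conjugate prime ideals in a cyclic cubic field
-/

set_option autoImplicit false

open NumberField Complex Filter Topology Ideal
open scoped Pointwise

namespace Pool.Agent.Y772.SK

open Pool.Agent.Y773

variable {K : Type} [Field K] [NumberField K]

lemma smul_eq_map (τ : Gal(K/ℚ)) (I : Ideal (𝓞 K)) :
    τ • I = I.map (RingOfIntegers.mapRingEquiv τ.toRingEquiv : 𝓞 K →+* 𝓞 K) := by
  rw [Ideal.pointwise_smul_def]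
  congr 1

lemma rs_apply (τ : Gal(K/ℚ)) (ψ : Ideal (𝓞 K) →*₀ ℂ) (I : Ideal (𝓞 K)) :
    rs τ.toRingEquiv ψ I = ψ I * (starRingEnd ℂ) (ψ (τ • I)) := by
  rw [smul_eq_map]
  rfl

lemma exists_gen (hG : IsGalois ℚ K) (h3 : Module.finrank ℚ K = 3) :
    ∃ τ : Gal(K/ℚ), τ ≠ 1 ∧ τ ^ 3 = 1 ∧ ∀ γ : Gal(K/ℚ), γ = 1 ∨ γ = τ ∨ γ = τ ^ 2 := by
  classical
  have hc : Nat.card Gal(K/ℚ) = 3 := by rw [IsGalois.card_aut_eq_finrank, h3]
  have hp : Fact (Nat.Prime 3) := ⟨Nat.prime_three⟩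
  have hcyc : IsCyclic Gal(K/ℚ) := isCyclic_of_prime_card hc
  obtain ⟨τ, hτ⟩ := hcyc.exists_generator
  have ho : orderOf τ = 3 := by rw [← hc]; exact orderOf_eq_card_of_forall_mem_zpowers hτ
  have h3' : τ ^ 3 = 1 := by rw [← ho]; exact pow_orderOf_eq_one τ
  refine ⟨τ, ?_, h3', fun γ => ?_⟩
  · rintro rfl
    simp at ho
  · have h1 := hτ γ
    rw [← mem_powers_iff_mem_zpowers] at h1
    obtain ⟨n, rfl⟩ := h1
    simp only
    rw [← pow_mod_orderOf, ho]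
    have h2 : n % 3 < 3 := Nat.mod_lt _ (by norm_num)
    interval_cases n % 3
    · left; exact pow_zero τ
    · right; left; exact pow_one τ
    · right; right; rfl

lemma ncard_two {α : Type*} (a b : α) : ({a, b} : Set α).ncard ≤ 2 := by
  have := Set.ncard_insert_le a {b}
  rw [Set.ncard_singleton] at this
  exact this

lemma ncard_three {α : Type*} (a b c : α) : ({a, b, c} : Set α).ncard ≤ 3 := by
  have := Set.ncard_insert_le a {b, c}
  have h := ncard_two b c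
  omega

/-- the primes of norm `p` -/
lemma orbit (hG : IsGalois ℚ K) (h3 : Module.finrank ℚ K = 3) {τ : Gal(K/ℚ)}
    (hτ : ∀ γ : Gal(K/ℚ), γ = 1 ∨ γ = τ ∨ γ = τ ^ 2) {p : ℕ} (hp : p.Prime)
    {P : Ideal (𝓞 K)} (h : absNorm P = p) (hd : ¬ P ∣ differentIdeal ℤ (𝓞 K)) :
    {Q : Ideal (𝓞 K) | absNorm Q = p} = {P, τ • P, τ ^ 2 • P} ∧
      P ≠ τ • P ∧ P ≠ τ ^ 2 • P ∧ τ • P ≠ τ ^ 2 • P := by
  classical
  have hcard := NZ.ncard_norm hG h3 hp h hd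
  have hP := NZ.prime_of_norm hp h
  have hPl := NZ.liesOver_of_norm hp h
  have hsub : {Q : Ideal (𝓞 K) | absNorm Q = p} ⊆ {P, τ • P, τ ^ 2 • P} := by
    intro Q hQ
    have hQ1 : absNorm Q = p := hQ
    have hQp := NZ.prime_of_norm hp hQ1
    have hQl := NZ.liesOver_of_norm hp hQ1
    obtain ⟨γ, hγ⟩ := exists_smul_eq_of_isGaloisGroup (span {(p : ℤ)}) P Q (Gal(K/ℚ))
    rcases hτ γ with rfl | rfl | rfl
    · left
      rw [← hγ, one_smul]
    · right; left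
      exact hγ.symm
    · right; right
      exact hγ.symm
  have hfin : ({P, τ • P, τ ^ 2 • P} : Set (Ideal (𝓞 K))).Finite := by simp
  have hle : ({P, τ • P, τ ^ 2 • P} : Set (Ideal (𝓞 K))).ncard ≤ 3 := ncard_three _ _ _
  have heq : {Q : Ideal (𝓞 K) | absNorm Q = p} = {P, τ • P, τ ^ 2 • P} :=
    Set.eq_of_subset_of_ncard_le hsub (by rw [hcard]; exact hle) hfin
  refine ⟨heq, ?_, ?_, ?_⟩
  · intro h1
    rw [heq, ← h1, Set.insert_eq_of_mem (Set.mem_insert _ _)] at hcard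
    have := ncard_two P (τ ^ 2 • P)
    omega
  · intro h1
    rw [heq, ← h1, Set.insert_eq_of_mem (by simp)] at hcard
    have := ncard_two (τ • P) P
    omega
  · intro h1
    rw [heq, ← h1, Set.pair_eq_singleton] at hcard
    have := ncard_two P (τ • P)
    omega

lemma sum_three {hG : IsGalois ℚ K} (h3 : Module.finrank ℚ K = 3) {τ : Gal(K/ℚ)}
    (hτ : ∀ γ : Gal(K/ℚ), γ = 1 ∨ γ = τ ∨ γ = τ ^ 2) {p : ℕ} (hp : p.Prime)
    {P : Ideal (𝓞 K)} (h : absNorm P = p) (hd : ¬ P ∣ differentIdeal ℤ (𝓞 K))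
    (f : Ideal (𝓞 K) → ℂ) :
    ∑ᶠ 𝔭 ∈ {𝔭 : Ideal (𝓞 K) | absNorm 𝔭 = p}, f 𝔭 = f P + (f (τ • P) + f (τ ^ 2 • P)) := by
  obtain ⟨h1, h2, h3, h4⟩ := orbit hG h3 hτ hp h hd
  rw [h1, finsum_mem_insert f (by simp [h2, h3]) (by simp), finsum_mem_pair h4]

end Pool.Agent.Y772.SK
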